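import Mathlib

/-!
Definitions for the problem on unique subgraphs of dense random graphs.
-/

namespace Pool.Agent.Work.MP_618f8d_co

/-- `H` is a unique subgraph of `G`: `H` is a spanning subgraph of `G`, and no other spanning
subgraph of `G` is isomorphic to `H`. -/
def IsUniqueSubgraph {V : Type*} (G H : SimpleGraph V) : Prop :=
  H ≤ G ∧ ∀ H' : SimpleGraph V, H' ≤ G → Nonempty (H' ≃g H) → H' = H

/-- `u(G)`: the number of unique subgraphs of the graph `G` on the vertex set `Fin n`. -/
noncomputable def numUnique {n : ℕ} (G : SimpleGraph (Fin n)) : ℕ :=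
  {H : SimpleGraph (Fin n) | IsUniqueSubgraph G H}.ncard

/-- `m_n = n(n-1)/2 - ⌊n log n / log 2⌋` (truncated at `0` for the few small `n` for which this
difference is negative). -/
noncomputable def mEdges (n : ℕ) : ℕ :=
  n.choose 2 - ⌊(n : ℝ) * Real.log n / Real.log 2⌋₊

/-- The probability that a graph chosen uniformly at random among all graphs on the vertex set
`Fin n` with exactly `m` edges satisfies `P`. -/
noncomputable def prob (n m : ℕ) (P : SimpleGraph (Fin n) → Prop) : ℝ :=
  ({G : SimpleGraph (Fin n) | G.edgeSet.ncard = m ∧ P G}.ncard : ℝ) /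
    ({G : SimpleGraph (Fin n) | G.edgeSet.ncard = m}.ncard : ℝ)

end Pool.Agent.Work.MP_618f8d_co
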