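import Mathlib

namespace Pool.Agent.Work.MP_618f8d_co

open Finset

/-- Upper Stirling bound. -/
lemma factorial_le_stirling (n : ℕ) (hn : 1 ≤ n) :
    (n.factorial : ℝ) ≤ Real.exp 1 * √n * (n / Real.exp 1) ^ n := by
  obtain ⟨m, rfl⟩ : ∃ m, n = m + 1 := ⟨n - 1, by omega⟩
  have h := Stirling.stirlingSeq'_antitone (Nat.zero_le m)
  simp only [Function.comp, Nat.succ_eq_add_one, zero_add, Stirling.stirlingSeq_one] at h
  rw [Stirling.stirlingSeq, div_le_div_iff₀ (by positivity) (by positivity)] at h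
  have h2 : √(2 * ((m + 1 : ℕ) : ℝ)) = √2 * √((m + 1 : ℕ) : ℝ) := Real.sqrt_mul (by norm_num) _
  rw [h2] at h
  have h3 : 0 < √(2 : ℝ) := by positivity
  have h4 : ((m + 1).factorial : ℝ) * √2 ≤
      (Real.exp 1 * √((m + 1 : ℕ) : ℝ) * (((m + 1 : ℕ) : ℝ) / Real.exp 1) ^ (m + 1)) * √2 := by
    calc _ ≤ _ := h
      _ = _ := by ring
  exact le_of_mul_le_mul_right h4 h3

/-- Lower bound for binomial coefficients. -/
theorem choose_lower (N t : ℕ) (ht : 1 ≤ t) (htN : t < N) :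
    (N : ℝ) ^ N ≤ 4 * √t * (N.choose t) * (t : ℝ) ^ t * ((N - t : ℕ) : ℝ) ^ (N - t) := by
  have hN : (0 : ℝ) < N := by exact_mod_cast (by omega : 0 < N)
  have h1 := Stirling.le_factorial_stirling N
  have h2 := factorial_le_stirling t ht
  have h3 := factorial_le_stirling (N - t) (by omega)
  have h4 : (N.factorial : ℝ) = N.choose t * t.factorial * (N - t).factorial := by
    exact_mod_cast (Nat.choose_mul_factorial_mul_factorial htN.le).symm
  rw [h4] at h1
  set E := Real.exp 1 with hE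
  have hE0 : 0 < E := Real.exp_pos 1
  set s : ℝ := ((N - t : ℕ) : ℝ) with hs
  have hs0 : 0 ≤ s := Nat.cast_nonneg _
  have h5 : √(2 * Real.pi * N) * (N / E) ^ N ≤
      N.choose t * (E * √t * (t / E) ^ t) * (E * √s * (s / E) ^ (N - t)) := by
    refine h1.trans ?_
    gcongr
  have h6 : (N : ℝ) ^ N * √(2 * Real.pi * N) ≤
      E ^ 2 * √t * √s * N.choose t * (t : ℝ) ^ t * s ^ (N - t) := by
    have h7 : E ^ N = E ^ t * E ^ (N - t) := by
      rw [← pow_add]
      congr 1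
      omega
    rw [div_pow, div_pow, div_pow] at h5
    have h8 : √(2 * Real.pi * N) * ((N : ℝ) ^ N / E ^ N)
        = ((N : ℝ) ^ N * √(2 * Real.pi * N)) / E ^ N := by ring
    have h9 : N.choose t * (E * √t * ((t : ℝ) ^ t / E ^ t)) * (E * √s * (s ^ (N - t) / E ^ (N - t)))
        = (E ^ 2 * √t * √s * N.choose t * (t : ℝ) ^ t * s ^ (N - t)) / E ^ N := by
      rw [h7]
      field_simp
    rw [h8, h9] at h5
    exact (div_le_div_iff_of_pos_right (by positivity)).mp h5
  have h10 : √(2 * Real.pi * N) = √(2 * Real.pi) * √N := Real.sqrt_mul (by positivity) _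
  have h11 : √s ≤ √N := Real.sqrt_le_sqrt (by rw [hs]; exact_mod_cast Nat.sub_le _ _)
  have hsN : 0 < √(N : ℝ) := Real.sqrt_pos.mpr hN
  have h12 : E ^ 2 ≤ 4 * √(2 * Real.pi) := by
    have ha : E ^ 2 < 8 := by
      have := Real.exp_one_lt_d9
      nlinarith
    have hb : (2 : ℝ) ≤ √(2 * Real.pi) := by
      apply Real.le_sqrt_of_sq_le
      nlinarith [Real.pi_gt_three]
    linarith
  rw [h10] at h6
  have hX : 0 ≤ √t * N.choose t * (t : ℝ) ^ t * s ^ (N - t) := by positivity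
  have h13 : (√(2 * Real.pi) * √N) * (N : ℝ) ^ N ≤
      (√(2 * Real.pi) * √N) * (4 * √t * (N.choose t) * (t : ℝ) ^ t * s ^ (N - t)) := by
    calc _ = (N : ℝ) ^ N * (√(2 * Real.pi) * √N) := by ring
      _ ≤ _ := h6
      _ = E ^ 2 * √s * (√t * N.choose t * (t : ℝ) ^ t * s ^ (N - t)) := by ring
      _ ≤ (4 * √(2 * Real.pi)) * √N * (√t * N.choose t * (t : ℝ) ^ t * s ^ (N - t)) := by
          gcongr
      _ = _ := by ring
  exact le_of_mul_le_mul_left h13 (by positivity)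

end Pool.Agent.Work.MP_618f8d_co
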