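import Mathlib

/-!
Kernel inequality for permutations.

For a permutation `σ` of a finite type `α` and nonnegative kernels `K e : Bool → Bool → ℝ`,
the sum over all `M : α → Bool` of `∏ e, K e (M e) (M (σ e))` is at most the product over `e`
of the trace of `K e` (if `σ e = e`) or of the Frobenius norm of `K e` (if `σ e ≠ e`).
-/

namespace Pool.Agent.Work.MP_618f8d_co

open Finset

/-- Frobenius norm of a `Bool × Bool` kernel. -/
noncomputable def frob (K : Bool → Bool → ℝ) : ℝ := √(∑ a, ∑ b, K a b ^ 2)

lemma frob_nonneg (K : Bool → Bool → ℝ) : 0 ≤ frob K := Real.sqrt_nonneg _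

/-- Cauchy-Schwarz for the trace of a product. -/
lemma trace_mul_le (K L : Bool → Bool → ℝ) :
    ∑ x, ∑ a, K x a * L a x ≤ frob K * frob L := by
  unfold frob
  rw [← Real.sqrt_mul (by positivity)]
  apply Real.le_sqrt_of_sq_le
  simp only [Fintype.sum_bool]
  nlinarith [sq_nonneg (K true true * L false true - K true false * L true true),
    sq_nonneg (K true true * L true false - K false true * L true true),
    sq_nonneg (K true true * L false false - K false false * L true true),
    sq_nonneg (K true false * L true false - K false true * L false true),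
    sq_nonneg (K true false * L false false - K false false * L false true),
    sq_nonneg (K false true * L false false - K false false * L true false)]

/-- Submultiplicativity of the Frobenius norm. -/
lemma frob_mul_le (K L : Bool → Bool → ℝ) :
    frob (fun x y => ∑ a, K x a * L a y) ≤ frob K * frob L := by
  unfold frob
  rw [← Real.sqrt_mul (by positivity)]
  apply Real.sqrt_le_sqrt
  simp only [Fintype.sum_bool]
  nlinarith [sq_nonneg (K true true * L false true - K true false * L true true),
    sq_nonneg (K true true * L false false - K true false * L true false),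
    sq_nonneg (K false true * L false true - K false false * L true true),
    sq_nonneg (K false true * L false false - K false false * L true false)]

/-- The bound on a single factor. -/
noncomputable def fac {α : Type*} [DecidableEq α] (σ : Equiv.Perm α) (K : α → Bool → Bool → ℝ)
    (e : α) : ℝ := if σ e = e then ∑ a, K e a a else frob (K e)

lemma fac_nonneg {α : Type*} [DecidableEq α] (σ : Equiv.Perm α) (K : α → Bool → Bool → ℝ)
    (hK : ∀ e a b, 0 ≤ K e a b) (e : α) : 0 ≤ fac σ K e := by
  unfold fac
  split_ifs
  · exact Finset.sum_nonneg fun a _ => hK e a a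
  · exact frob_nonneg _

/-- Splitting the sum over `Option α → Bool`. -/
lemma sum_option_fun {α : Type*} [Fintype α] [DecidableEq α] (F : (Option α → Bool) → ℝ) :
    ∑ M : Option α → Bool, F M
      = ∑ M' : α → Bool, ∑ a : Bool, F (fun o => o.elim a M') := by
  rw [← (Equiv.piOptionEquivProd (β := fun _ : Option α => Bool)).symm.sum_comp,
    Fintype.sum_prod_type_right]
  refine Finset.sum_congr rfl fun M' _ => Finset.sum_congr rfl fun a _ => ?_
  congr 1
  funext o
  cases o <;> rfl

theorem kernel_bound_step {α : Type*} [Fintype α] [DecidableEq α]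
    (ih : ∀ (σ : Equiv.Perm α) (K : α → Bool → Bool → ℝ), (∀ e a b, 0 ≤ K e a b) →
      ∑ M : α → Bool, ∏ e, K e (M e) (M (σ e)) ≤ ∏ e, fac σ K e)
    (σ : Equiv.Perm (Option α)) (K : Option α → Bool → Bool → ℝ)
    (hK : ∀ e a b, 0 ≤ K e a b) :
    ∑ M : Option α → Bool, ∏ e, K e (M e) (M (σ e)) ≤ ∏ e, fac σ K e := by
  rw [sum_option_fun, Fintype.prod_option]
  simp only [Fintype.prod_option]
  set τ := Equiv.removeNone σ with hτ
  by_cases h0 : σ none = none
  · -- fixed point
    have hsome : ∀ e, σ (some e) = some (τ e) := by
      intro e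
      refine (Equiv.removeNone_some σ ?_).symm
      rcases h : σ (some e) with _ | y
      · exfalso
        have := σ.injective (h.trans h0.symm)
        simp at this
      · exact ⟨y, rfl⟩
    have hfac : ∀ e, fac σ K (some e) = fac τ (fun e => K (some e)) e := by
      intro e
      unfold fac
      rw [hsome]
      simp
    have h1 : fac σ K none = ∑ a, K none a a := by
      unfold fac
      simp [h0]
    rw [h1]
    simp only [hfac]
    calc _ = (∑ a, K none a a) * ∑ M' : α → Bool, ∏ e, K (some e) (M' e) (M' (τ e)) := by
          rw [Finset.sum_comm, Finset.sum_mul_sum]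
          refine Finset.sum_congr rfl fun a _ => Finset.sum_congr rfl fun M' _ => ?_
          simp [h0, hsome]
      _ ≤ _ := by
          apply mul_le_mul_of_nonneg_left _ (Finset.sum_nonneg fun a _ => hK none a a)
          exact ih τ _ fun e a b => hK (some e) a b
  · -- not a fixed point
    obtain ⟨p, hp⟩ : ∃ p, σ none = some p := Option.ne_none_iff_exists'.mp h0
    have hq0 : σ.symm none ≠ none := by
      intro h
      apply h0
      rw [← h, Equiv.apply_symm_apply, h]
    obtain ⟨q, hq'⟩ : ∃ q, σ.symm none = some q := Option.ne_none_iff_exists'.mp hq0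
    have hq : σ (some q) = none := by rw [← hq', Equiv.apply_symm_apply]
    have hτq : τ q = p := by
      have := Equiv.removeNone_none σ hq
      rw [hp] at this
      exact Option.some_injective _ this
    have hτe : ∀ e, e ≠ q → σ (some e) = some (τ e) := by
      intro e he
      refine (Equiv.removeNone_some σ ?_).symm
      rcases h : σ (some e) with _ | y
      · exfalso
        have := σ.injective (h.trans hq.symm)
        exact he (Option.some_injective _ this)
      · exact ⟨y, rfl⟩
    set K' : α → Bool → Bool → ℝ :=
      Function.update (fun e => K (some e)) q (fun x y => ∑ a, K (some q) x a * K none a y)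
      with hK'
    have hK'q : K' q = fun x y => ∑ a, K (some q) x a * K none a y := by
      simp [hK']
    have hK'e : ∀ e, e ≠ q → K' e = K (some e) := by
      intro e he
      simp [hK', he]
    have hK'n : ∀ e a b, 0 ≤ K' e a b := by
      intro e a b
      by_cases he : e = q
      · subst he
        rw [hK'q]
        exact Finset.sum_nonneg fun c _ => mul_nonneg (hK _ _ _) (hK _ _ _)
      · rw [hK'e e he]
        exact hK _ _ _
    have key : ∀ M' : α → Bool,
        (∑ a : Bool, K none ((none : Option α).elim a M') ((σ none).elim a M') *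
          ∏ e, K (some e) ((some e).elim a M') ((σ (some e)).elim a M'))
        = ∏ e, K' e (M' e) (M' (τ e)) := by
      intro M'
      rw [← Finset.mul_prod_erase univ _ (Finset.mem_univ q), hK'q, hτq]
      have : ∀ e ∈ univ.erase q, K' e (M' e) (M' (τ e)) = K (some e) (M' e) (M' (τ e)) := by
        intro e he
        rw [hK'e e (Finset.ne_of_mem_erase he)]
      rw [Finset.prod_congr rfl this, Finset.sum_mul]
      refine Finset.sum_congr rfl fun a _ => ?_
      rw [← Finset.mul_prod_erase univ _ (Finset.mem_univ q), hq, hp]
      have : ∀ e ∈ univ.erase q, K (some e) ((some e).elim a M') ((σ (some e)).elim a M')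
          = K (some e) (M' e) (M' (τ e)) := by
        intro e he
        rw [hτe e (Finset.ne_of_mem_erase he)]
        rfl
      rw [Finset.prod_congr rfl this]
      simp only [Option.elim]
      ring
    rw [Finset.sum_congr rfl fun M' _ => key M']
    refine (ih τ K' hK'n).trans ?_
    rw [← Finset.mul_prod_erase univ _ (Finset.mem_univ q),
      ← Finset.mul_prod_erase univ (fun e => fac σ K (some e)) (Finset.mem_univ q)]
    have h1 : fac σ K none = frob (K none) := by
      unfold fac
      rw [if_neg h0]
    have h2 : fac σ K (some q) = frob (K (some q)) := by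
      unfold fac
      rw [if_neg (by rw [hq]; simp)]
    have h3 : ∀ e ∈ univ.erase q, fac τ K' e = fac σ K (some e) := by
      intro e he
      have he' := Finset.ne_of_mem_erase he
      unfold fac
      rw [hτe e he', hK'e e he']
      simp
    have h4 : fac τ K' q ≤ frob (K none) * frob (K (some q)) := by
      unfold fac
      rw [hτq, hK'q]
      split_ifs with h
      · rw [mul_comm]
        exact trace_mul_le _ _
      · rw [mul_comm]
        exact frob_mul_le _ _
    rw [h1, h2, Finset.prod_congr rfl h3, ← mul_assoc]
    apply mul_le_mul_of_nonneg_right h4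
    exact Finset.prod_nonneg fun e _ => fac_nonneg σ K hK _

/-- **Kernel inequality for permutations.** -/
theorem kernel_bound (α : Type) [hα : Fintype α] [DecidableEq α]
    (σ : Equiv.Perm α) (K : α → Bool → Bool → ℝ) (hK : ∀ e a b, 0 ≤ K e a b) :
    ∑ M : α → Bool, ∏ e, K e (M e) (M (σ e)) ≤ ∏ e, fac σ K e := by
  classical
  suffices H : ∀ n : ℕ, ∀ (α : Type) [Fintype α] [DecidableEq α], Fintype.card α = n →
      ∀ (σ : Equiv.Perm α) (K : α → Bool → Bool → ℝ), (∀ e a b, 0 ≤ K e a b) →
      ∑ M : α → Bool, ∏ e, K e (M e) (M (σ e)) ≤ ∏ e, fac σ K e from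
    H _ α rfl σ K hK
  -- transfer along an equivalence
  have transfer : ∀ (α β : Type) [Fintype α] [DecidableEq α] [Fintype β] [DecidableEq β]
      (φ : α ≃ β), (∀ (σ : Equiv.Perm α) (K : α → Bool → Bool → ℝ), (∀ e a b, 0 ≤ K e a b) →
        ∑ M : α → Bool, ∏ e, K e (M e) (M (σ e)) ≤ ∏ e, fac σ K e) →
      (∀ (σ : Equiv.Perm β) (K : β → Bool → Bool → ℝ), (∀ e a b, 0 ≤ K e a b) →
        ∑ M : β → Bool, ∏ e, K e (M e) (M (σ e)) ≤ ∏ e, fac σ K e) := by
    intro α β _ _ _ _ φ h σ K hK
    have := h (φ.trans (σ.trans φ.symm)) (fun e => K (φ e)) (fun e a b => hK _ _ _)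
    rw [← (Equiv.arrowCongr φ (Equiv.refl Bool)).sum_comp]
    calc _ = ∑ M : α → Bool, ∏ e, K (φ e) (M e) (M ((φ.trans (σ.trans φ.symm)) e)) := by
          refine Finset.sum_congr rfl fun M _ => ?_
          rw [← φ.prod_comp]
          refine Finset.prod_congr rfl fun e _ => ?_
          simp [Equiv.arrowCongr]
      _ ≤ _ := this
      _ = _ := by
          rw [← φ.prod_comp]
          refine Finset.prod_congr rfl fun e _ => ?_
          unfold fac
          simp [Equiv.symm_apply_eq]
  intro n
  induction n with
  | zero =>
    intro α _ _ hcard σ K hK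
    haveI : IsEmpty α := Fintype.card_eq_zero_iff.mp hcard
    simp
  | succ n ih =>
    intro α _ _ hcard
    have e1 : Option (Fin n) ≃ α := by
      refine Fintype.equivOfCardEq ?_
      simp [hcard]
    exact transfer _ _ e1 (kernel_bound_step (ih (Fin n) (by simp)))

end Pool.Agent.Work.MP_618f8d_co
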