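import Mathlib
import Pool.Agent.Work.MP_618f8d_co.Defs
import Pool.Agent.Work.MP_618f8d_co.Kernel

namespace Pool.Agent.Work.MP_618f8d_co

open Finset

/-- Unordered pairs of distinct vertices. -/
abbrev Prs (n : ℕ) := {e : Sym2 (Fin n) // ¬ e.IsDiag}

open Classical in
/-- The indicator of the missing edges of `G`. -/
noncomputable def miss {n : ℕ} (G : SimpleGraph (Fin n)) : Prs n → Bool :=
  fun e => decide (e.1 ∉ G.edgeSet)

lemma miss_eq_true {n : ℕ} (G : SimpleGraph (Fin n)) (e : Prs n) :
    miss G e = true ↔ e.1 ∉ G.edgeSet := by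
  simp [miss]

lemma miss_eq_false {n : ℕ} (G : SimpleGraph (Fin n)) (e : Prs n) :
    miss G e = false ↔ e.1 ∈ G.edgeSet := by
  simp [miss]

/-- Graphs on `Fin n` correspond to `Bool`-valued functions on pairs. -/
noncomputable def missEquiv (n : ℕ) : SimpleGraph (Fin n) ≃ (Prs n → Bool) where
  toFun := miss
  invFun M := SimpleGraph.fromEdgeSet {e | ∃ h : ¬ e.IsDiag, M ⟨e, h⟩ = false}
  left_inv G := by
    apply SimpleGraph.edgeSet_injective
    rw [SimpleGraph.edgeSet_fromEdgeSet]
    ext e
    constructor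
    · rintro ⟨⟨h, h1⟩, _⟩
      exact (miss_eq_false G ⟨e, h⟩).mp h1
    · intro h
      have hd := G.not_isDiag_of_mem_edgeSet h
      exact ⟨⟨hd, (miss_eq_false G ⟨e, hd⟩).mpr h⟩, hd⟩
  right_inv M := by
    funext e
    rcases h : M e with _ | _
    · rw [miss_eq_false, SimpleGraph.edgeSet_fromEdgeSet]
      exact ⟨⟨e.2, h⟩, e.2⟩
    · rw [miss_eq_true, SimpleGraph.edgeSet_fromEdgeSet]
      rintro ⟨⟨h1, h2⟩, _⟩
      rw [h] at h2
      exact absurd h2 (by simp)

@[simp] lemma missEquiv_apply {n : ℕ} (G : SimpleGraph (Fin n)) : missEquiv n G = miss G := rfl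

/-- The permutation of pairs induced by a permutation of vertices. -/
def permPr {n : ℕ} (π : Equiv.Perm (Fin n)) : Equiv.Perm (Prs n) where
  toFun e := ⟨Sym2.map π e.1, fun h => e.2 ((Sym2.isDiag_map π.injective).mp h)⟩
  invFun e := ⟨Sym2.map π.symm e.1, fun h => e.2 ((Sym2.isDiag_map π.symm.injective).mp h)⟩
  left_inv e := by
    apply Subtype.ext
    simp [Sym2.map_map]
  right_inv e := by
    apply Subtype.ext
    simp [Sym2.map_map]

lemma card_Prs (n : ℕ) : Fintype.card (Prs n) = n.choose 2 := by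
  have := Sym2.card_subtype_not_diag (α := Fin n)
  simpa using this

open Classical in
lemma ncard_edgeSet {n : ℕ} (G : SimpleGraph (Fin n)) :
    G.edgeSet.ncard = #{e : Prs n | miss G e = false} := by
  rw [← Set.ncard_coe_finset]
  have : (((univ.filter fun e : Prs n => miss G e = false) : Finset (Prs n)) : Set (Prs n))
      = Subtype.val ⁻¹' G.edgeSet := by
    ext e
    simp [miss_eq_false]
  rw [this, ← Set.ncard_image_of_injective _ Subtype.val_injective]
  congr 1
  ext e
  constructor
  · intro h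
    exact ⟨⟨e, G.not_isDiag_of_mem_edgeSet h⟩, h, rfl⟩
  · rintro ⟨e', h, rfl⟩
    exact h

lemma card_miss_add {n : ℕ} (G : SimpleGraph (Fin n)) :
    #{e : Prs n | miss G e = true} + G.edgeSet.ncard = n.choose 2 := by
  rw [ncard_edgeSet, ← card_Prs, ← Finset.card_univ,
    ← Finset.card_filter_add_card_filter_not (s := univ) (fun e : Prs n => miss G e = true)]
  simp

/-- `H ≤ G` in terms of missing edges. -/
lemma le_iff_miss {n : ℕ} (H G : SimpleGraph (Fin n)) :
    H ≤ G ↔ ∀ e, miss G e = true → miss H e = true := by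
  rw [← SimpleGraph.edgeSet_subset_edgeSet]
  constructor
  · intro h e he
    rw [miss_eq_true] at he ⊢
    exact fun h' => he (h h')
  · intro h e he
    by_contra h'
    have hd := H.not_isDiag_of_mem_edgeSet he
    exact (miss_eq_true H ⟨e, hd⟩).mp (h ⟨e, hd⟩ ((miss_eq_true G ⟨e, hd⟩).mpr h')) he

/-- `H.map π ≤ G` in terms of missing edges. -/
lemma map_le_iff_miss {n : ℕ} (H G : SimpleGraph (Fin n)) (π : Equiv.Perm (Fin n)) :
    H.map π.toEmbedding ≤ G ↔ ∀ e, miss G (permPr π e) = true → miss H e = true := by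
  rw [← SimpleGraph.edgeSet_subset_edgeSet, SimpleGraph.edgeSet_map]
  constructor
  · intro h e he
    rw [miss_eq_true] at he ⊢
    intro h'
    apply he
    apply h
    exact ⟨e.1, h', rfl⟩
  · intro h e he
    obtain ⟨e', he', rfl⟩ := he
    by_contra h'
    have hd := H.not_isDiag_of_mem_edgeSet he'
    refine (miss_eq_true H ⟨e', hd⟩).mp (h ⟨e', hd⟩ ((miss_eq_true G _).mpr ?_)) he'
    exact h'

/-- The weight `2` if both are `false` and `1` otherwise. -/
def wt (a b : Bool) : ℕ := if a || b then 1 else 2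

/-- The number of `H` with `H ≤ G` and `H.map π ≤ G`. -/
lemma ncard_pair {n : ℕ} (G : SimpleGraph (Fin n)) (π : Equiv.Perm (Fin n)) :
    {H : SimpleGraph (Fin n) | H ≤ G ∧ H.map π.toEmbedding ≤ G}.ncard
      = ∏ e, wt (miss G e) (miss G (permPr π e)) := by
  classical
  have h1 : {H : SimpleGraph (Fin n) | H ≤ G ∧ H.map π.toEmbedding ≤ G}
      = missEquiv n ⁻¹' (((Fintype.piFinset fun e : Prs n =>
        (univ.filter fun b : Bool => (miss G e || miss G (permPr π e)) = true → b = true)) :
          Finset (Prs n → Bool)) : Set (Prs n → Bool)) := by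
    ext H
    simp only [Set.mem_ofPred_eq, Set.mem_preimage, missEquiv_apply, Finset.mem_coe,
      Fintype.mem_piFinset, Finset.mem_filter, Finset.mem_univ, true_and, map_le_iff_miss,
      Bool.or_eq_true]
    rw [le_iff_miss]
    constructor
    · rintro ⟨h1, h2⟩ e (h | h)
      · exact h1 e h
      · exact h2 e h
    · intro h
      exact ⟨fun e he => h e (Or.inl he), fun e he => h e (Or.inr he)⟩
  rw [h1, Set.ncard_preimage_of_injective_subset_range (missEquiv n).injective
    (by rw [(missEquiv n).surjective.range_eq]; exact Set.subset_univ _), Set.ncard_coe_finset,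
    Fintype.card_piFinset]
  refine Finset.prod_congr rfl fun e _ => ?_
  unfold wt
  cases miss G e <;> cases miss G (permPr π e) <;> decide

/-- The number of spanning subgraphs of `G` is `2 ^ |E(G)|`. -/
lemma ncard_le {n : ℕ} (G : SimpleGraph (Fin n)) :
    {H : SimpleGraph (Fin n) | H ≤ G}.ncard = 2 ^ G.edgeSet.ncard := by
  classical
  have h := ncard_pair G 1
  have h1 : {H : SimpleGraph (Fin n) | H ≤ G ∧ H.map (1 : Equiv.Perm (Fin n)).toEmbedding ≤ G}
      = {H : SimpleGraph (Fin n) | H ≤ G} := by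
    ext H
    simp only [Set.mem_ofPred_eq, map_le_iff_miss]
    rw [le_iff_miss]
    have : ∀ e, permPr (1 : Equiv.Perm (Fin n)) e = e := by
      intro e
      apply Subtype.ext
      simp [permPr]
    simp [this]
  rw [h1] at h
  rw [h, ncard_edgeSet]
  have : ∀ e, permPr (1 : Equiv.Perm (Fin n)) e = e := by
    intro e
    apply Subtype.ext
    simp [permPr]
  simp only [this, wt, Bool.or_self]
  rw [Finset.prod_ite]
  simp

/-- Union bound: the number of unique subgraphs of `G` is at least `2 ^ |E(G)|` minus the sum over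
nonidentity permutations `π` of the number of `H ≤ G` with `H.map π ≤ G`. -/
lemma le_numUnique_add {n : ℕ} (G : SimpleGraph (Fin n)) :
    2 ^ G.edgeSet.ncard ≤ numUnique G +
      ∑ π ∈ (univ : Finset (Equiv.Perm (Fin n))).erase 1,
        ∏ e, wt (miss G e) (miss G (permPr π e)) := by
  classical
  rw [← ncard_le]
  have hsub : {H : SimpleGraph (Fin n) | H ≤ G} ⊆
      {H : SimpleGraph (Fin n) | IsUniqueSubgraph G H} ∪
        ⋃ π ∈ (univ : Finset (Equiv.Perm (Fin n))).erase 1,
          {H : SimpleGraph (Fin n) | H ≤ G ∧ H.map π.toEmbedding ≤ G} := by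
    intro H hH
    by_cases hu : IsUniqueSubgraph G H
    · exact Or.inl hu
    · right
      unfold IsUniqueSubgraph at hu
      push Not at hu
      obtain ⟨H', hH', ⟨φ⟩, hne⟩ := hu hH
      simp only [Set.mem_iUnion, Set.mem_ofPred_eq, Finset.mem_erase, Finset.mem_univ, and_true]
      have hmap : H.map (φ.symm.toEquiv : Equiv.Perm (Fin n)).toEmbedding = H' := by
        ext a b
        simp only [SimpleGraph.map_adj]
        constructor
        · rintro ⟨x, y, hxy, rfl, rfl⟩
          exact φ.symm.map_adj_iff.mpr hxy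
        · intro hab
          refine ⟨φ a, φ b, φ.map_adj_iff.mpr hab, ?_, ?_⟩ <;> simp
      refine ⟨(φ.symm.toEquiv : Equiv.Perm (Fin n)), ?_, hH, ?_⟩
      · intro h1
        apply hne
        rw [← hmap, h1]
        ext a b
        simp
      · rw [hmap]
        exact hH'
  refine (Set.ncard_le_ncard hsub (Set.toFinite _)).trans ?_
  refine (Set.ncard_union_le _ _).trans ?_
  unfold numUnique
  gcongr
  refine (Finset.set_ncard_biUnion_le _ _).trans ?_
  refine le_of_eq (Finset.sum_congr rfl fun π _ => ?_)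
  exact ncard_pair G π

end Pool.Agent.Work.MP_618f8d_co
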