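import Mathlib
import Pool.Agent.Work.MP_618f8d_co.Graph

namespace Pool.Agent.Work.MP_618f8d_co

open Finset

/-- Number of pairs fixed by the permutation induced by `π`. -/
def fixP {n : ℕ} (π : Equiv.Perm (Fin n)) : ℕ := #{e : Prs n | permPr π e = e}

lemma fixP_le_choose {n : ℕ} (π : Equiv.Perm (Fin n)) : fixP π ≤ n.choose 2 := by
  rw [← card_Prs]
  exact Finset.card_le_univ _

/-- The generating function bound. -/
theorem Z_bound {n : ℕ} (π : Equiv.Perm (Fin n)) (x : ℝ) (hx : 0 ≤ x) (t : ℕ) :
    (∑ M : Prs n → Bool with #{e | M e = true} = t,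
        ∏ e, (wt (M e) (M (permPr π e)) : ℝ)) * x ^ t
      ≤ (2 + x) ^ fixP π * (√(4 + 2 * x + x ^ 2)) ^ (n.choose 2 - fixP π) := by
  classical
  set s : Bool → ℝ := fun a => if a then √x else 1 with hs
  have hs0 : ∀ a, 0 ≤ s a := by
    intro a
    cases a <;> simp [hs]
  set K : Bool → Bool → ℝ := fun a b => s a * s b * (wt a b : ℝ) with hK
  have hK0 : ∀ a b, 0 ≤ K a b := by
    intro a b
    simp only [hK]
    have h1 := hs0 a
    have h2 := hs0 b
    positivity
  have hprod : ∀ M : Prs n → Bool, ∏ e, K (M e) (M (permPr π e))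
      = x ^ (#{e | M e = true}) * ∏ e, (wt (M e) (M (permPr π e)) : ℝ) := by
    intro M
    simp only [hK]
    rw [Finset.prod_mul_distrib, Finset.prod_mul_distrib,
      Equiv.prod_comp (permPr π) (fun e => s (M e)), ← Finset.prod_mul_distrib]
    congr 1
    have : ∀ e, s (M e) * s (M e) = if M e = true then x else 1 := by
      intro e
      cases M e <;> simp [hs, Real.mul_self_sqrt hx]
    rw [Finset.prod_congr rfl fun e _ => this e, Finset.prod_ite]
    simp
  have hb := kernel_bound (Prs n) (permPr π) (fun _ => K) (fun _ => hK0)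
  have hfac : ∏ e, fac (permPr π) (fun _ : Prs n => K) e
      = (2 + x) ^ fixP π * (√(4 + 2 * x + x ^ 2)) ^ (n.choose 2 - fixP π) := by
    unfold fac
    rw [Finset.prod_ite, Finset.prod_const, Finset.prod_const]
    have h1 : ∑ a, K a a = 2 + x := by
      simp only [Fintype.sum_bool, hK, hs, wt]
      simp [Real.mul_self_sqrt hx]
      ring
    have h2 : frob K = √(4 + 2 * x + x ^ 2) := by
      unfold frob
      congr 1
      simp only [Fintype.sum_bool, hK, hs, wt]
      simp
      have := Real.sq_sqrt hx
      have h4 : (√x * √x) = x := Real.mul_self_sqrt hx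
      rw [h4, this]
      ring
    rw [h1, h2]
    congr 2
    have h5 := Finset.card_filter_add_card_filter_not (s := univ)
      (fun e : Prs n => permPr π e = e)
    rw [Finset.card_univ, card_Prs] at h5
    unfold fixP
    omega
  rw [hfac] at hb
  refine le_trans ?_ hb
  rw [Finset.sum_mul]
  calc _ = ∑ M : Prs n → Bool with #{e | M e = true} = t, ∏ e, K (M e) (M (permPr π e)) := by
        refine Finset.sum_congr rfl fun M hM => ?_
        rw [hprod, (Finset.mem_filter.mp hM).2, mul_comm]
    _ ≤ _ := by
        apply Finset.sum_le_sum_of_subset_of_nonneg (Finset.filter_subset _ _)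
        intro M _ _
        exact Finset.prod_nonneg fun e _ => hK0 _ _

/-- Fixed pairs: both endpoints fixed, or swapped. -/
theorem fixP_le {n : ℕ} (π : Equiv.Perm (Fin n)) :
    fixP π ≤ (n - #π.support).choose 2 + #π.support := by
  classical
  have h1 : fixP π = #((univ.filter fun e : Prs n => permPr π e = e).image Subtype.val) := by
    rw [Finset.card_image_of_injective _ Subtype.val_injective]
    rfl
  rw [h1]
  have hsub : (univ.filter fun e : Prs n => permPr π e = e).image Subtype.val ⊆
      (π.supportᶜ.offDiag.image Sym2.mk.uncurry) ∪ (π.support.image fun a => s(a, π a)) := by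
    intro e he
    rw [Finset.mem_image] at he
    obtain ⟨e', he', rfl⟩ := he
    rw [Finset.mem_filter] at he'
    obtain ⟨_, he'⟩ := he'
    have h2 : Sym2.map π e'.1 = e'.1 := congrArg Subtype.val he'
    have h3 := e'.2
    generalize e'.1 = z at h2 h3
    induction z using Sym2.ind with
    | _ a b =>
      rw [Sym2.map_mk, Sym2.eq_iff] at h2
      rw [Sym2.mk_isDiag_iff] at h3
      rw [Finset.mem_union]
      rcases h2 with ⟨ha, hb⟩ | ⟨ha, hb⟩
      · left
        rw [Finset.mem_image]
        refine ⟨(a, b), ?_, rfl⟩
        rw [Finset.mem_offDiag]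
        simp [ha, hb, h3]
      · right
        rw [Finset.mem_image]
        refine ⟨a, ?_, ?_⟩
        · rw [Equiv.Perm.mem_support, ha]
          exact fun h => h3 h.symm
        · rw [ha]
  refine (Finset.card_le_card hsub).trans ((Finset.card_union_le _ _).trans ?_)
  apply add_le_add
  · rw [Sym2.card_image_offDiag, Finset.card_compl, Fintype.card_fin]
  · exact Finset.card_image_le

/-- The number of permutations with support of size `k` is at most `n (n-1) ⋯ (n-k+1)`. -/
theorem card_perm_support (n k : ℕ) :
    #{π : Equiv.Perm (Fin n) | #π.support = k} ≤ n.descFactorial k := by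
  classical
  have h1 : (univ.filter fun π : Equiv.Perm (Fin n) => #π.support = k) ⊆
      (Finset.powersetCard k (univ : Finset (Fin n))).biUnion fun S =>
        univ.filter fun π : Equiv.Perm (Fin n) => ∀ a, ¬ (a ∈ S) → π a = a := by
    intro π hπ
    rw [Finset.mem_biUnion]
    refine ⟨π.support, ?_, ?_⟩
    · rw [Finset.mem_powersetCard]
      exact ⟨Finset.subset_univ _, (Finset.mem_filter.mp hπ).2⟩
    · simp
  refine (Finset.card_le_card h1).trans (Finset.card_biUnion_le.trans ?_)
  have h2 : ∀ S ∈ Finset.powersetCard k (univ : Finset (Fin n)),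
      #(univ.filter fun π : Equiv.Perm (Fin n) => ∀ a, ¬ (a ∈ S) → π a = a) = k.factorial := by
    intro S hS
    have h3 := (Equiv.Perm.subtypeEquivSubtypePerm (fun a : Fin n => a ∈ S))
    have h4 := Fintype.card_congr h3
    rw [Fintype.card_perm, Fintype.card_coe, (Finset.mem_powersetCard.mp hS).2,
      Fintype.card_subtype] at h4
    exact h4.symm
  rw [Finset.sum_congr rfl h2, Finset.sum_const, Finset.card_powersetCard, Finset.card_univ,
    Fintype.card_fin, smul_eq_mul, Nat.descFactorial_eq_factorial_mul_choose, mul_comm]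

/-- Sum over nonidentity permutations grouped by the support size. -/
theorem sum_perm_le (n : ℕ) (g : ℕ → ℝ) (hg : ∀ k, 0 ≤ g k) :
    ∑ π ∈ (univ : Finset (Equiv.Perm (Fin n))).erase 1, g (#π.support)
      ≤ ∑ k ∈ Finset.Icc 2 n, (n.descFactorial k : ℝ) * g k := by
  classical
  have hmaps : ∀ π ∈ (univ : Finset (Equiv.Perm (Fin n))).erase 1,
      #π.support ∈ Finset.Icc 2 n := by
    intro π hπ
    rw [Finset.mem_Icc]
    constructor
    · exact Equiv.Perm.two_le_card_support_of_ne_one (Finset.ne_of_mem_erase hπ)
    · calc #π.support ≤ #(univ : Finset (Fin n)) := Finset.card_le_univ _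
        _ = n := by simp
  rw [← Finset.sum_fiberwise_of_maps_to hmaps]
  refine Finset.sum_le_sum fun k _ => ?_
  calc _ = ∑ π ∈ ((univ : Finset (Equiv.Perm (Fin n))).erase 1).filter
        (fun π => #π.support = k), g k := by
        refine Finset.sum_congr rfl fun π hπ => ?_
        rw [(Finset.mem_filter.mp hπ).2]
    _ = (#(((univ : Finset (Equiv.Perm (Fin n))).erase 1).filter
        (fun π => #π.support = k)) : ℝ) * g k := by
        rw [Finset.sum_const, nsmul_eq_mul]
    _ ≤ _ := by
        apply mul_le_mul_of_nonneg_right _ (hg k)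
        have : #(((univ : Finset (Equiv.Perm (Fin n))).erase 1).filter
          (fun π => #π.support = k)) ≤ n.descFactorial k := by
          refine le_trans (Finset.card_le_card ?_) (card_perm_support n k)
          apply Finset.filter_subset_filter
          exact Finset.subset_univ _
        exact_mod_cast this

end Pool.Agent.Work.MP_618f8d_co
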