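import Mathlib
import Pool.Agent.Work.MP_618f8d_co.Count
import Pool.Agent.Work.MP_618f8d_co.Binom

namespace Pool.Agent.Work.MP_618f8d_co

open Finset

/-- Number of pairs `(G, H)` with `G` having `t` missing edges, `H ≤ G` and `H.map π ≤ G`. -/
noncomputable def Z {n : ℕ} (π : Equiv.Perm (Fin n)) (t : ℕ) : ℝ :=
  ∑ M : Prs n → Bool with #{e | M e = true} = t, ∏ e, (wt (M e) (M (permPr π e)) : ℝ)

/-- Bound for `Z` in terms of the parameters. -/
theorem Z_le {n : ℕ} (π : Equiv.Perm (Fin n)) (t : ℕ) (ht : 1 ≤ t) (htN : t < n.choose 2)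
    (a : ℝ) (ha : 0 < a) (q : ℝ) (hq : q = (t : ℝ) / (n.choose 2 : ℕ)) :
    Z π t ≤ ((n.choose 2).choose t : ℝ) * 2 ^ (n.choose 2 - t) * (4 * √t * (a⁻¹) ^ t *
      Real.exp ((a - 1) * q * fixP π) *
      Real.exp ((-2 * q + q ^ 2 + a * q * (1 - q) + a ^ 2 * q ^ 2) *
        ((n.choose 2 : ℕ) - fixP π : ℝ) / 2)) := by
  set N := n.choose 2 with hN
  set f := fixP π with hf
  have hfN : f ≤ N := fixP_le_choose π
  have hN0 : (0 : ℝ) < N := by exact_mod_cast (by omega : 0 < N)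
  have ht0 : (0 : ℝ) < t := by exact_mod_cast (by omega : 0 < t)
  have htN' : (t : ℝ) < N := by exact_mod_cast htN
  have hs : ((N - t : ℕ) : ℝ) = N - t := by
    rw [Nat.cast_sub htN.le]
  have hs0 : (0 : ℝ) < (N : ℝ) - t := by linarith
  set y : ℝ := a * t / (N - t) with hy
  have hy0 : 0 < y := by positivity
  have h1 := Z_bound π (2 * y) (by positivity) t
  rw [← hf, ← hN] at h1
  have h2 : √(4 + 2 * (2 * y) + (2 * y) ^ 2) = 2 * √(1 + y + y ^ 2) := by
    rw [show 4 + 2 * (2 * y) + (2 * y) ^ 2 = 2 ^ 2 * (1 + y + y ^ 2) by ring,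
      Real.sqrt_mul (by positivity), Real.sqrt_sq (by norm_num)]
  have h3 : (2 + 2 * y) ^ f * (√(4 + 2 * (2 * y) + (2 * y) ^ 2)) ^ (N - f)
      = 2 ^ N * ((1 + y) ^ f * √(1 + y + y ^ 2) ^ (N - f)) := by
    rw [h2, show 2 + 2 * y = 2 * (1 + y) by ring, mul_pow, mul_pow]
    have : (2 : ℝ) ^ N = 2 ^ f * 2 ^ (N - f) := by
      rw [← pow_add]
      congr 1
      omega
    rw [this]
    ring
  rw [h3] at h1
  have hbin := choose_lower N t ht htN
  rw [hs] at hbin
  -- combine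
  have hq0 : 0 < q := by rw [hq]; positivity
  have hq1 : 1 - q = (N - t) / N := by
    rw [hq]
    field_simp
  have hq1' : 0 < 1 - q := by rw [hq1]; positivity
  have hqy : (1 - q) * y = a * q := by
    rw [hq1, hy, hq]
    field_simp
  set B : ℝ := 1 + (-2 * q + q ^ 2 + a * q * (1 - q) + a ^ 2 * q ^ 2) with hB
  have hB1 : ((1 - q) * √(1 + y + y ^ 2)) ^ 2 = B := by
    rw [mul_pow, Real.sq_sqrt (by positivity), hB]
    have : (1 - q) ^ 2 * (1 + y + y ^ 2)
        = (1 - q) ^ 2 + (1 - q) * ((1 - q) * y) + ((1 - q) * y) ^ 2 := by ring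
    rw [this, hqy]
    ring
  have hBexp : (1 - q) * √(1 + y + y ^ 2) ≤ Real.exp ((B - 1) / 2) := by
    apply le_of_sq_le_sq _ (Real.exp_pos _).le
    rw [hB1, ← Real.exp_nat_mul]
    have := Real.add_one_le_exp (B - 1)
    calc B = (B - 1) + 1 := by ring
      _ ≤ _ := this
      _ = _ := by
        congr 1
        push_cast
        ring
  have hAexp : (1 - q) * (1 + y) ≤ Real.exp ((a - 1) * q) := by
    have h4 : (1 - q) * (1 + y) = (a - 1) * q + 1 := by
      rw [mul_add, hqy]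
      ring
    rw [h4]
    exact Real.add_one_le_exp _
  have hfin : (1 - q) ^ N * ((1 + y) ^ f * √(1 + y + y ^ 2) ^ (N - f))
      ≤ Real.exp ((a - 1) * q * f) * Real.exp ((B - 1) * (N - f) / 2) := by
    have h5 : (1 - q) ^ N = (1 - q) ^ f * (1 - q) ^ (N - f) := by
      rw [← pow_add]
      congr 1
      omega
    calc _ = ((1 - q) * (1 + y)) ^ f * ((1 - q) * √(1 + y + y ^ 2)) ^ (N - f) := by
          rw [h5, mul_pow, mul_pow]
          ring
      _ ≤ (Real.exp ((a - 1) * q)) ^ f * (Real.exp ((B - 1) / 2)) ^ (N - f) := by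
          gcongr
      _ = _ := by
          rw [← Real.exp_nat_mul, ← Real.exp_nat_mul, Nat.cast_sub hfN]
          congr 2 <;> ring
  -- Z * (2y)^t ≤ 2^N * X
  set X : ℝ := (1 + y) ^ f * √(1 + y + y ^ 2) ^ (N - f) with hX
  have hX0 : 0 < X := by positivity
  have h6 : Z π t * (2 * y) ^ t ≤ 2 ^ N * X := h1
  have h7 : Z π t ≤ 2 ^ N * X / (2 * y) ^ t := by
    rw [le_div_iff₀ (by positivity)]
    exact h6
  refine h7.trans ?_
  -- 1 ≤ 4 √t C t^t (N-t)^(N-t) / N^N
  have h8 : (1 : ℝ) ≤ 4 * √t * (N.choose t) * (t : ℝ) ^ t * ((N : ℝ) - t) ^ (N - t) / (N : ℝ) ^ N := by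
    rw [le_div_iff₀ (by positivity), one_mul]
    exact hbin
  calc 2 ^ N * X / (2 * y) ^ t ≤ 2 ^ N * X / (2 * y) ^ t *
        (4 * √t * (N.choose t) * (t : ℝ) ^ t * ((N : ℝ) - t) ^ (N - t) / (N : ℝ) ^ N) := by
        apply le_mul_of_one_le_right (by positivity) h8
    _ = (N.choose t : ℝ) * 2 ^ (N - t) * (4 * √t * (a⁻¹) ^ t * ((1 - q) ^ N * X)) := by
        have e1 : (2 : ℝ) ^ N = 2 ^ t * 2 ^ (N - t) := by
          rw [← pow_add]
          congr 1
          omega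
        have e2 : ((N : ℝ) - t) ^ N = ((N : ℝ) - t) ^ t * ((N : ℝ) - t) ^ (N - t) := by
          rw [← pow_add]
          congr 1
          omega
        rw [mul_pow, hy, hq1, div_pow, div_pow, mul_pow, e1, e2, inv_pow]
        field_simp
    _ ≤ (N.choose t : ℝ) * 2 ^ (N - t) * (4 * √t * (a⁻¹) ^ t *
        (Real.exp ((a - 1) * q * f) * Real.exp ((B - 1) * (N - f) / 2))) := by
        gcongr
    _ = _ := by
        rw [hB]
        ring_nf

end Pool.Agent.Work.MP_618f8d_co
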