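import Mathlib
import Pool.Agent.Work.MP_618f8d_co.RBound

namespace Pool.Agent.Work.MP_618f8d_co

open Finset Filter Topology

/-- Number of missing edges `⌊n log n / log 2⌋`. -/
noncomputable def tMiss (n : ℕ) : ℕ := ⌊(n : ℝ) * Real.log n / Real.log 2⌋₊

/-- The facts used for large `n`. -/
structure Large (n : ℕ) : Prop where
  hn : 1000 ≤ n
  hL : Real.log n / Real.log 2 ≤ Real.exp (0.1 * Real.log n)
  hL2 : Real.log n / Real.log 2 ≤ 0.001 * n
  h3 : 2 * Real.log n + 4 * (Real.log n / Real.log 2) + 6 * (Real.log n / Real.log 2) ^ 2 ≤ n / 4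
  h4 : Real.exp (0.9 * Real.log n) ≤ n / 4

lemma eventually_large : ∀ᶠ n : ℕ in atTop, Large n := by
  have hlog : Tendsto (fun n : ℕ => Real.log (n : ℝ)) atTop atTop :=
    Real.tendsto_log_atTop.comp tendsto_natCast_atTop_atTop
  have hl2 : 0 < Real.log 2 := Real.log_pos (by norm_num)
  -- exp beats polynomials
  have e1 : ∀ᶠ x : ℝ in atTop, x / Real.log 2 ≤ Real.exp (0.1 * x) := by
    have h := (isLittleO_pow_exp_pos_mul_atTop (k := 1) (b := (0.1 : ℝ)) (by norm_num)).bound hl2
    filter_upwards [h, eventually_ge_atTop (0 : ℝ)] with x hx hx0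
    rw [pow_one, Real.norm_eq_abs, Real.norm_eq_abs, abs_of_nonneg hx0,
      abs_of_pos (Real.exp_pos _)] at hx
    rw [div_le_iff₀ hl2]
    linarith
  have e2 : ∀ᶠ x : ℝ in atTop, x / Real.log 2 ≤ 0.001 * Real.exp x := by
    have h := (isLittleO_pow_exp_pos_mul_atTop (k := 1) (b := (1 : ℝ)) (by norm_num)).bound
      (c := 0.001 * Real.log 2) (by positivity)
    filter_upwards [h, eventually_ge_atTop (0 : ℝ)] with x hx hx0
    rw [pow_one, Real.norm_eq_abs, Real.norm_eq_abs, abs_of_nonneg hx0,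
      abs_of_pos (Real.exp_pos _), one_mul] at hx
    rw [div_le_iff₀ hl2]
    linarith
  have e3 : ∀ᶠ x : ℝ in atTop,
      2 * x + 4 * (x / Real.log 2) + 6 * (x / Real.log 2) ^ 2 ≤ Real.exp x / 4 := by
    set c : ℝ := 2 + 4 / Real.log 2 + 6 / (Real.log 2) ^ 2 with hc
    have hc0 : 0 < c := by positivity
    have h := (isLittleO_pow_exp_pos_mul_atTop (k := 2) (b := (1 : ℝ)) (by norm_num)).bound
      (c := 1 / (4 * c)) (by positivity)
    filter_upwards [h, eventually_ge_atTop (1 : ℝ)] with x hx hx1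
    rw [Real.norm_eq_abs, Real.norm_eq_abs, abs_of_nonneg (by positivity),
      abs_of_pos (Real.exp_pos _), one_mul] at hx
    have h5 : 2 * x + 4 * (x / Real.log 2) + 6 * (x / Real.log 2) ^ 2 ≤ c * x ^ 2 := by
      have hx2 : x ≤ x ^ 2 := by nlinarith
      have a1 : 2 * x ≤ 2 * x ^ 2 := by linarith
      have a2 : 4 * (x / Real.log 2) ≤ 4 / Real.log 2 * x ^ 2 := by
        rw [show 4 * (x / Real.log 2) = 4 / Real.log 2 * x by ring]
        gcongr
      have a3 : 6 * (x / Real.log 2) ^ 2 = 6 / (Real.log 2) ^ 2 * x ^ 2 := by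
        rw [div_pow]
        ring
      rw [a3, hc]
      linarith
    refine h5.trans ?_
    calc c * x ^ 2 ≤ c * (1 / (4 * c) * Real.exp x) := by gcongr
      _ = _ := by field_simp
  have e4 : ∀ᶠ x : ℝ in atTop, Real.exp (0.9 * x) ≤ Real.exp x / 4 := by
    filter_upwards [eventually_ge_atTop (20 : ℝ)] with x hx
    have : Real.exp x = Real.exp (0.9 * x) * Real.exp (0.1 * x) := by
      rw [← Real.exp_add]
      congr 1
      ring
    rw [this]
    have h6 : (4 : ℝ) ≤ Real.exp (0.1 * x) := by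
      have h7 : Real.exp 2 ≤ Real.exp (0.1 * x) := Real.exp_le_exp.mpr (by linarith)
      have h8 : (4 : ℝ) ≤ Real.exp 2 := by
        have h9 : Real.exp 2 = Real.exp 1 * Real.exp 1 := by
          rw [← Real.exp_add]
          norm_num
        have := Real.exp_one_gt_d9
        rw [h9]
        nlinarith
      linarith
    have := Real.exp_pos (0.9 * x)
    nlinarith
  filter_upwards [eventually_ge_atTop 1000, hlog.eventually e1, hlog.eventually e2,
    hlog.eventually e3, hlog.eventually e4] with n hn h1 h2 h3 h4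
  have hn0 : (0 : ℝ) < n := by
    exact_mod_cast (by omega : 0 < n)
  rw [Real.exp_log hn0] at h2 h3 h4
  exact ⟨hn, h1, h2, h3, h4⟩

section
variable {n : ℕ}

lemma choose_two_real (hn : 1 ≤ n) : ((n.choose 2 : ℕ) : ℝ) = n * (n - 1) / 2 := by
  rw [Nat.cast_choose_two]

/-- Basic consequences of largeness. -/
lemma basic (h : Large n) :
    (n : ℝ) * (Real.log n / Real.log 2) - 1 ≤ tMiss n ∧
    (tMiss n : ℝ) ≤ n * (Real.log n / Real.log 2) ∧
    1 ≤ tMiss n ∧ tMiss n < n.choose 2 ∧ 6 ≤ Real.log n := by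
  have hn := h.hn
  have hn' : (1000 : ℝ) ≤ n := by exact_mod_cast hn
  have hl2 : 0 < Real.log 2 := Real.log_pos (by norm_num)
  have hl2' : Real.log 2 < 0.7 := by
    have := Real.log_two_lt_d9
    linarith
  have hlog6 : 6 ≤ Real.log n := by
    rw [Real.le_log_iff_exp_le (by linarith)]
    have h1 : Real.exp 6 = Real.exp 1 ^ 6 := by
      rw [← Real.exp_nat_mul]
      norm_num
    have h2 := Real.exp_one_lt_d9
    have h3 : Real.exp 1 ^ 6 ≤ 2.72 ^ 6 := by
      gcongr
      linarith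
    rw [h1]
    refine h3.trans ?_
    norm_num
    linarith
  have hL8 : 8 ≤ Real.log n / Real.log 2 := by
    rw [le_div_iff₀ hl2]
    linarith
  have e : (n : ℝ) * Real.log n / Real.log 2 = n * (Real.log n / Real.log 2) := by ring
  have h1 : (n : ℝ) * (Real.log n / Real.log 2) - 1 ≤ tMiss n := by
    have := Nat.sub_one_lt_floor ((n : ℝ) * Real.log n / Real.log 2)
    unfold tMiss
    rw [← e]
    linarith
  have h2 : (tMiss n : ℝ) ≤ n * (Real.log n / Real.log 2) := by
    unfold tMiss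
    rw [← e]
    exact Nat.floor_le (by positivity)
  refine ⟨h1, h2, ?_, ?_, hlog6⟩
  · have : (1 : ℝ) ≤ tMiss n := by nlinarith
    exact_mod_cast this
  · have : (tMiss n : ℝ) < (n.choose 2 : ℕ) := by
      rw [choose_two_real (by omega)]
      have := h.hL2
      nlinarith
    exact_mod_cast this

/-- The ratio `q` of missing pairs. -/
noncomputable def qn (n : ℕ) : ℝ := (tMiss n : ℝ) / (n.choose 2 : ℕ)

lemma q_bounds (h : Large n) :
    2 * (Real.log n / Real.log 2) / n ≤ qn n ∧ qn n ≤ 2 * (Real.log n / Real.log 2) / (n - 1) ∧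
    qn n ≤ 0.01 ∧ 0 < qn n := by
  obtain ⟨h1, h2, h3, h4, h5⟩ := basic h
  have hn := h.hn
  have hn' : (1000 : ℝ) ≤ n := by exact_mod_cast hn
  have hl2 : 0 < Real.log 2 := Real.log_pos (by norm_num)
  have hl2' : Real.log 2 < 0.7 := by
    have := Real.log_two_lt_d9
    linarith
  set L := Real.log n / Real.log 2 with hL
  have hL8 : 8 ≤ L := by
    rw [hL, le_div_iff₀ hl2]
    linarith
  have hN : ((n.choose 2 : ℕ) : ℝ) = n * (n - 1) / 2 := choose_two_real (by omega)
  have hN0 : (0 : ℝ) < n * (n - 1) / 2 := by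
    have : (0 : ℝ) < n - 1 := by linarith
    positivity
  have a1 : 2 * L / n ≤ qn n := by
    unfold qn
    rw [hN, div_le_div_iff₀ (by linarith) hN0]
    nlinarith
  have a2 : qn n ≤ 2 * L / (n - 1) := by
    unfold qn
    rw [hN, div_le_div_iff₀ hN0 (by linarith)]
    nlinarith
  refine ⟨a1, a2, ?_, ?_⟩
  · refine a2.trans ?_
    rw [div_le_iff₀ (by linarith)]
    have := h.hL2
    nlinarith
  · refine lt_of_lt_of_le ?_ a1
    positivity

end

end Pool.Agent.Work.MP_618f8d_co
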