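import Mathlib
import Pool.Agent.Work.MP_618f8d_co.Asymp

namespace Pool.Agent.Work.MP_618f8d_co

open Finset Filter Topology

/-- The majorant of the contribution of a permutation with support size `k`. -/
noncomputable def maj (n k : ℕ) : ℝ :=
  if (k : ℝ) ≤ 2 * n / 5 then
    4 * √(tMiss n) * Real.exp (-(qn n * (1 - qn n) * (k * (2 * n - k - 3)) / 4))
  else
    4 * √(tMiss n) * (2⁻¹) ^ (tMiss n) * Real.exp (qn n * (((n : ℝ) - k) ^ 2 / 2 + n)) *
      Real.exp (3 * (qn n) ^ 2 * (n.choose 2 : ℕ) / 2)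

lemma maj_nonneg (n k : ℕ) : 0 ≤ maj n k := by
  unfold maj
  split_ifs <;> positivity

lemma support_card_le {n : ℕ} (π : Equiv.Perm (Fin n)) : #π.support ≤ n := by
  calc #π.support ≤ #(univ : Finset (Fin n)) := Finset.card_le_univ _
    _ = n := by simp

theorem Z_le_maj {n : ℕ} (h : Large n) (π : Equiv.Perm (Fin n)) :
    Z π (tMiss n) ≤ ((n.choose 2).choose (tMiss n) : ℝ) * 2 ^ (n.choose 2 - tMiss n) *
      maj n (#π.support) := by
  obtain ⟨h1, h2, h3, h4, h5⟩ := basic h
  obtain ⟨q1, q2, q3, q4⟩ := q_bounds h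
  have hn := h.hn
  have hn' : (1000 : ℝ) ≤ n := by exact_mod_cast hn
  have hk : #π.support ≤ n := support_card_le π
  have hf := fixP_le π
  set k := #π.support with hkdef
  have hf' : (fixP π : ℝ) ≤ ((n : ℝ) - k) * ((n : ℝ) - k - 1) / 2 + k := by
    have h6 : (fixP π : ℝ) ≤ (((n - k).choose 2 + k : ℕ) : ℝ) := by exact_mod_cast hf
    rw [Nat.cast_add, Nat.cast_choose_two, Nat.cast_sub hk] at h6
    exact h6
  have hk' : (k : ℝ) ≤ n := by exact_mod_cast hk
  have hN : ((n.choose 2 : ℕ) : ℝ) = n * (n - 1) / 2 := choose_two_real (by omega)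
  unfold maj
  split_ifs with hc
  · refine (Z_le π (tMiss n) h3 h4 1 one_pos (qn n) rfl).trans ?_
    apply mul_le_mul_of_nonneg_left _ (by positivity)
    rw [inv_one, one_pow, mul_one, sub_self, zero_mul, zero_mul, Real.exp_zero, mul_one]
    apply mul_le_mul_of_nonneg_left _ (by positivity)
    apply Real.exp_le_exp.mpr
    have e1 : -2 * qn n + qn n ^ 2 + 1 * qn n * (1 - qn n) + 1 ^ 2 * qn n ^ 2
        = -(qn n * (1 - qn n)) := by ring
    rw [e1]
    have h7 : (k : ℝ) * (2 * n - k - 3) / 2 ≤ ((n.choose 2 : ℕ) : ℝ) - fixP π := by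
      rw [hN]
      nlinarith
    have h8 : 0 ≤ qn n * (1 - qn n) := mul_nonneg q4.le (by linarith)
    nlinarith [mul_le_mul_of_nonneg_left h7 h8]
  · refine (Z_le π (tMiss n) h3 h4 2 two_pos (qn n) rfl).trans ?_
    apply mul_le_mul_of_nonneg_left _ (by positivity)
    have e1 : -2 * qn n + qn n ^ 2 + 2 * qn n * (1 - qn n) + 2 ^ 2 * qn n ^ 2
        = 3 * qn n ^ 2 := by ring
    rw [e1]
    have e2 : ((2 : ℝ) - 1) * qn n * fixP π = qn n * fixP π := by ring
    rw [e2]
    have h7 : (fixP π : ℝ) ≤ ((n : ℝ) - k) ^ 2 / 2 + n := by nlinarith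
    have h8 : qn n * fixP π ≤ qn n * (((n : ℝ) - k) ^ 2 / 2 + n) :=
      mul_le_mul_of_nonneg_left h7 q4.le
    have h9 : 3 * qn n ^ 2 * (((n.choose 2 : ℕ) : ℝ) - fixP π) / 2
        ≤ 3 * qn n ^ 2 * ((n.choose 2 : ℕ) : ℝ) / 2 := by
      have : (0 : ℝ) ≤ fixP π := Nat.cast_nonneg _
      nlinarith [mul_nonneg (sq_nonneg (qn n)) this]
    gcongr

/-- Crude bounds on `√t`. -/
lemma sqrt_t_le {n : ℕ} (h : Large n) :
    √(tMiss n) ≤ Real.exp (0.55 * Real.log n) := by
  obtain ⟨h1, h2, h3, h4, h5⟩ := basic h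
  have hn' : (1000 : ℝ) ≤ n := by exact_mod_cast h.hn
  apply Real.sqrt_le_iff.mpr
  refine ⟨(Real.exp_pos _).le, ?_⟩
  rw [← Real.exp_nat_mul]
  have h6 : (n : ℝ) = Real.exp (Real.log n) := (Real.exp_log (by linarith)).symm
  calc (tMiss n : ℝ) ≤ n * (Real.log n / Real.log 2) := h2
    _ ≤ n * Real.exp (0.1 * Real.log n) := by
        apply mul_le_mul_of_nonneg_left h.hL (by linarith)
    _ = Real.exp (Real.log n) * Real.exp (0.1 * Real.log n) := by rw [← h6]
    _ = _ := by
        rw [← Real.exp_add]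
        congr 1
        push_cast
        ring

lemma desc_le_exp {n : ℕ} (hn : 1 ≤ n) (k : ℕ) :
    (n.descFactorial k : ℝ) ≤ Real.exp (k * Real.log n) := by
  have hn' : (0 : ℝ) < n := by exact_mod_cast hn
  rw [Real.exp_nat_mul, Real.exp_log hn']
  exact_mod_cast Nat.descFactorial_le_pow n k

/-- Small supports, first range. -/
lemma term1 {n : ℕ} (h : Large n) (k : ℕ) (hk : (k : ℝ) ≤ n / 10) :
    (n.descFactorial k : ℝ) * maj n k
      ≤ 4 * Real.exp (0.55 * Real.log n) * (Real.exp (-0.3 * Real.log n)) ^ k := by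
  obtain ⟨h1, h2, h3, h4, h5⟩ := basic h
  obtain ⟨q1, q2, q3, q4⟩ := q_bounds h
  have hn' : (1000 : ℝ) ≤ n := by exact_mod_cast h.hn
  have hl2 : 0 < Real.log 2 := Real.log_pos (by norm_num)
  have hl2' : Real.log 2 < 0.6932 := by
    have := Real.log_two_lt_d9
    linarith
  have hk0 : (0 : ℝ) ≤ k := Nat.cast_nonneg _
  unfold maj
  rw [if_pos (by linarith)]
  have hqn : 2 * (Real.log n / Real.log 2) ≤ qn n * n := by
    rwa [div_le_iff₀ (by linarith)] at q1
  have hL : 1.4425 * Real.log n ≤ Real.log n / Real.log 2 := by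
    rw [le_div_iff₀ hl2]
    nlinarith
  have key : 1.3 * Real.log n ≤ qn n * (1 - qn n) * (2 * n - k - 3) / 4 := by
    have a1 : 1.9 * (n : ℝ) - 3 ≤ 2 * n - k - 3 := by linarith
    have a2 : (1.88 : ℝ) * n ≤ 1.9 * n - 3 := by linarith
    have a3 : (1.88 : ℝ) * n ≤ 2 * n - k - 3 := by linarith
    have a4 : qn n * 0.99 ≤ qn n * (1 - qn n) := by nlinarith
    calc 1.3 * Real.log n ≤ 0.99 * (2 * (1.4425 * Real.log n)) * 1.88 / 4 := by
          linarith
      _ ≤ 0.99 * (2 * (Real.log n / Real.log 2)) * 1.88 / 4 := by gcongr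
      _ ≤ 0.99 * (qn n * n) * 1.88 / 4 := by gcongr
      _ = (qn n * 0.99) * (1.88 * n) / 4 := by ring
      _ ≤ (qn n * (1 - qn n)) * (2 * n - k - 3) / 4 := by
          apply div_le_div_of_nonneg_right _ (by norm_num)
          apply mul_le_mul a4 a3 (by linarith) (mul_nonneg q4.le (by linarith))
  have hexp : Real.exp (-(qn n * (1 - qn n) * (k * (2 * n - k - 3)) / 4))
      ≤ Real.exp (-(1.3 * k * Real.log n)) := by
    apply Real.exp_le_exp.mpr
    have := mul_le_mul_of_nonneg_left key hk0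
    nlinarith
  calc (n.descFactorial k : ℝ) *
        (4 * √(tMiss n) * Real.exp (-(qn n * (1 - qn n) * (k * (2 * n - k - 3)) / 4)))
      ≤ Real.exp (k * Real.log n) *
        (4 * Real.exp (0.55 * Real.log n) * Real.exp (-(1.3 * k * Real.log n))) := by
        have b1 := desc_le_exp (n := n) (by have := h.hn; omega) k
        have b2 := sqrt_t_le h
        gcongr
    _ = 4 * Real.exp (0.55 * Real.log n) *
        (Real.exp (k * Real.log n) * Real.exp (-(1.3 * k * Real.log n))) := by ring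
    _ = _ := by
        rw [← Real.exp_add, ← Real.exp_nat_mul]
        congr 2
        ring

/-- Small supports, second range. -/
lemma term2 {n : ℕ} (h : Large n) (k : ℕ) (hk : (k : ℝ) ≤ 2 * n / 5) (hk1 : (n : ℝ) / 10 < k) :
    (n.descFactorial k : ℝ) * maj n k ≤ 4 * Real.exp (-(9 * Real.log n)) := by
  obtain ⟨h1, h2, h3, h4, h5⟩ := basic h
  obtain ⟨q1, q2, q3, q4⟩ := q_bounds h
  have hn' : (1000 : ℝ) ≤ n := by exact_mod_cast h.hn
  have hl2 : 0 < Real.log 2 := Real.log_pos (by norm_num)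
  have hl2' : Real.log 2 < 0.6932 := by
    have := Real.log_two_lt_d9
    linarith
  have hk0 : (0 : ℝ) ≤ k := Nat.cast_nonneg _
  unfold maj
  rw [if_pos (by linarith)]
  have hqn : 2 * (Real.log n / Real.log 2) ≤ qn n * n := by
    rwa [div_le_iff₀ (by linarith)] at q1
  have hL : 1.4425 * Real.log n ≤ Real.log n / Real.log 2 := by
    rw [le_div_iff₀ hl2]
    nlinarith
  have key : 1.1 * Real.log n ≤ qn n * (1 - qn n) * (2 * n - k - 3) / 4 := by
    have a3 : (1.59 : ℝ) * n ≤ 2 * n - k - 3 := by linarith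
    have a4 : qn n * 0.99 ≤ qn n * (1 - qn n) := by nlinarith
    calc 1.1 * Real.log n ≤ 0.99 * (2 * (1.4425 * Real.log n)) * 1.59 / 4 := by
          linarith
      _ ≤ 0.99 * (2 * (Real.log n / Real.log 2)) * 1.59 / 4 := by gcongr
      _ ≤ 0.99 * (qn n * n) * 1.59 / 4 := by gcongr
      _ = (qn n * 0.99) * (1.59 * n) / 4 := by ring
      _ ≤ (qn n * (1 - qn n)) * (2 * n - k - 3) / 4 := by
          apply div_le_div_of_nonneg_right _ (by norm_num)
          apply mul_le_mul a4 a3 (by linarith) (mul_nonneg q4.le (by linarith))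
  have hexp : Real.exp (-(qn n * (1 - qn n) * (k * (2 * n - k - 3)) / 4))
      ≤ Real.exp (-(1.1 * k * Real.log n)) := by
    apply Real.exp_le_exp.mpr
    have := mul_le_mul_of_nonneg_left key hk0
    nlinarith
  calc (n.descFactorial k : ℝ) *
        (4 * √(tMiss n) * Real.exp (-(qn n * (1 - qn n) * (k * (2 * n - k - 3)) / 4)))
      ≤ Real.exp (k * Real.log n) *
        (4 * Real.exp (0.55 * Real.log n) * Real.exp (-(1.1 * k * Real.log n))) := by
        have b1 := desc_le_exp (n := n) (by have := h.hn; omega) k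
        have b2 := sqrt_t_le h
        gcongr
    _ = 4 * Real.exp (k * Real.log n + 0.55 * Real.log n + -(1.1 * k * Real.log n)) := by
        rw [Real.exp_add, Real.exp_add]
        ring
    _ ≤ _ := by
        have : (k : ℝ) * Real.log n + 0.55 * Real.log n + -(1.1 * k * Real.log n)
            ≤ -(9 * Real.log n) := by
          nlinarith
        gcongr

/-- Large supports. -/
lemma term3 {n : ℕ} (h : Large n) (k : ℕ) (hkn : k ≤ n) (hk : ¬ (k : ℝ) ≤ 2 * n / 5) :
    (n.descFactorial k : ℝ) * maj n k ≤ 24 * Real.exp (-(3 * (n : ℝ) / 4) + 0.55 * Real.log n +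
        0.5 * Real.log n) *
      ((Real.exp (0.9 * Real.log n)) ^ (n - k) / (n - k).factorial) := by
  obtain ⟨h1, h2, h3, h4, h5⟩ := basic h
  obtain ⟨q1, q2, q3, q4⟩ := q_bounds h
  have hnn := h.hn
  have hn' : (1000 : ℝ) ≤ n := by exact_mod_cast h.hn
  have hl2 : 0 < Real.log 2 := Real.log_pos (by norm_num)
  have hl2' : Real.log 2 < 0.6932 := by
    have := Real.log_two_lt_d9
    linarith
  have hl2'' : 0.693 < Real.log 2 := by
    have := Real.log_two_gt_d9
    linarith
  unfold maj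
  rw [if_neg hk]
  push Not at hk
  set j := n - k with hj
  have hjr : (j : ℝ) = n - k := by rw [hj, Nat.cast_sub hkn]
  have hj0 : (0 : ℝ) ≤ j := Nat.cast_nonneg _
  have hj1 : (j : ℝ) ≤ 3 * n / 5 := by rw [hjr]; linarith
  rw [← hjr]
  set L := Real.log n / Real.log 2 with hL
  have hL0 : 0 < L := by positivity
  have hN : ((n.choose 2 : ℕ) : ℝ) = n * (n - 1) / 2 := choose_two_real (by omega)
  -- descFactorial
  have hdesc : (n.descFactorial k : ℝ) = (n.factorial : ℝ) / j.factorial := by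
    rw [eq_div_iff (by positivity)]
    have := Nat.factorial_mul_descFactorial hkn
    rw [mul_comm]
    exact_mod_cast this
  -- factorial bound
  have hfac := factorial_le_stirling n (by omega)
  have hfac2 : (n.factorial : ℝ) ≤ 3 * Real.exp (0.5 * Real.log n) *
      Real.exp (n * Real.log n - n) := by
    refine hfac.trans ?_
    have c1 : Real.exp 1 ≤ 3 := by
      have := Real.exp_one_lt_d9
      linarith
    have c2 : √(n : ℝ) = Real.exp (0.5 * Real.log n) := by
      rw [Real.sqrt_eq_rpow, Real.rpow_def_of_pos (by linarith)]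
      congr 1
      ring
    have c3 : ((n : ℝ) / Real.exp 1) ^ n = Real.exp (n * Real.log n - n) := by
      have : (n : ℝ) / Real.exp 1 = Real.exp (Real.log n - 1) := by
        rw [Real.exp_sub, Real.exp_log (by linarith)]
      rw [this, ← Real.exp_nat_mul]
      congr 1
      ring
    rw [c2, c3]
    gcongr
  -- 2^{-t}
  have htwo : ((2 : ℝ)⁻¹) ^ (tMiss n) ≤ 2 * Real.exp (-(n * Real.log n)) := by
    have d1 : ((2 : ℝ)⁻¹) ^ (tMiss n) = Real.exp (-(tMiss n * Real.log 2)) := by
      rw [Real.exp_neg, Real.exp_nat_mul, Real.exp_log (by norm_num), inv_pow]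
    have d2 : (2 : ℝ) * Real.exp (-(n * Real.log n))
        = Real.exp (Real.log 2 + -(n * Real.log n)) := by
      rw [Real.exp_add, Real.exp_log (by norm_num)]
    rw [d1, d2]
    apply Real.exp_le_exp.mpr
    have d3 : L * Real.log 2 = Real.log n := by
      rw [hL]
      field_simp
    have d4 := mul_le_mul_of_nonneg_right h1 hl2.le
    have d5 : ((n : ℝ) * L - 1) * Real.log 2 = n * Real.log n - Real.log 2 := by
      rw [sub_mul, mul_assoc, d3]
      ring
    rw [d5] at d4
    linarith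
  -- q j^2/2
  have hq2 : qn n * (n - 1) ≤ 2 * L := by
    rwa [le_div_iff₀ (by linarith)] at q2
  have hLlog : L * 0.693 ≤ Real.log n := by
    have : L * Real.log 2 = Real.log n := by
      rw [hL]
      field_simp
    nlinarith
  have f0 : qn n * 999 ≤ qn n * (n - 1) := mul_le_mul_of_nonneg_left (by linarith) q4.le
  have f1 : qn n * n ≤ 2.01 * L := by
    have : qn n * n = qn n * (n - 1) + qn n := by ring
    linarith
  have hqj : qn n * ((j : ℝ) ^ 2 / 2) ≤ j * (0.9 * Real.log n) := by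
    have f2 : qn n * (j : ℝ) ≤ qn n * (3 * n / 5) := mul_le_mul_of_nonneg_left hj1 q4.le
    have f2' : qn n * (3 * n / 5) = 3 / 5 * (qn n * n) := by ring
    have f3 : qn n * (j : ℝ) / 2 ≤ 0.9 * Real.log n := by linarith
    calc qn n * ((j : ℝ) ^ 2 / 2) = j * (qn n * (j : ℝ) / 2) := by ring
      _ ≤ _ := mul_le_mul_of_nonneg_left f3 hj0
  have hqn : qn n * n ≤ 4 * L := by linarith
  have hqN : 3 * (qn n) ^ 2 * (n.choose 2 : ℕ) / 2 ≤ 6 * L ^ 2 := by
    have f1 : qn n * (n.choose 2 : ℕ) = tMiss n := by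
      unfold qn
      rw [div_mul_cancel₀]
      rw [hN]
      have : (0 : ℝ) < n * (n - 1) / 2 := by
        have : (0 : ℝ) < n - 1 := by linarith
        positivity
      exact this.ne'
    have f2 : 3 * (qn n) ^ 2 * (n.choose 2 : ℕ) / 2 = 3 / 2 * (qn n * (qn n * (n.choose 2 : ℕ))) := by
      ring
    rw [f2, f1]
    have f3 : qn n * tMiss n ≤ qn n * (n * L) := mul_le_mul_of_nonneg_left h2 q4.le
    have f4 : qn n * (n * L) ≤ 4 * L * L := by
      calc qn n * (n * L) = (qn n * n) * L := by ring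
        _ ≤ 4 * L * L := mul_le_mul_of_nonneg_right hqn hL0.le
    have f5 : (6 : ℝ) * L ^ 2 = 3 / 2 * (4 * L * L) := by ring
    rw [f5]
    linarith
  have hexp : Real.exp (qn n * ((j : ℝ) ^ 2 / 2 + n)) * Real.exp (3 * (qn n) ^ 2 * (n.choose 2 : ℕ) / 2)
      ≤ (Real.exp (0.9 * Real.log n)) ^ j * Real.exp (n / 4) := by
    rw [← Real.exp_nat_mul, ← Real.exp_add, ← Real.exp_add]
    apply Real.exp_le_exp.mpr
    have h6 := h.h3
    rw [← hL] at h6
    have h7 : qn n * ((j : ℝ) ^ 2 / 2 + n) = qn n * ((j : ℝ) ^ 2 / 2) + qn n * n := by ring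
    rw [h7]
    linarith
  have hsq := sqrt_t_le h
  rw [hdesc]
  calc (n.factorial : ℝ) / j.factorial * (4 * √(tMiss n) * (2⁻¹) ^ (tMiss n) *
        Real.exp (qn n * ((j : ℝ) ^ 2 / 2 + n)) * Real.exp (3 * (qn n) ^ 2 * (n.choose 2 : ℕ) / 2))
      = (n.factorial : ℝ) / j.factorial * (4 * √(tMiss n) * (2⁻¹) ^ (tMiss n) *
        (Real.exp (qn n * ((j : ℝ) ^ 2 / 2 + n)) *
          Real.exp (3 * (qn n) ^ 2 * (n.choose 2 : ℕ) / 2))) := by ring
    _ ≤ (3 * Real.exp (0.5 * Real.log n) * Real.exp (n * Real.log n - n)) / j.factorial *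
        (4 * Real.exp (0.55 * Real.log n) * (2 * Real.exp (-(n * Real.log n))) *
        ((Real.exp (0.9 * Real.log n)) ^ j * Real.exp (n / 4))) := by
        gcongr
    _ = 24 * (Real.exp (0.5 * Real.log n) * Real.exp (n * Real.log n - n) *
        Real.exp (0.55 * Real.log n) * Real.exp (-(n * Real.log n)) * Real.exp (n / 4)) *
        ((Real.exp (0.9 * Real.log n)) ^ j / j.factorial) := by ring
    _ = _ := by
        rw [← Real.exp_add, ← Real.exp_add, ← Real.exp_add, ← Real.exp_add]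
        congr 3
        ring

end Pool.Agent.Work.MP_618f8d_co
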