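import Mathlib
import Pool.Agent.Work.MP_618f8d_co.Major

namespace Pool.Agent.Work.MP_618f8d_co

open Finset Filter Topology

/-- The error bound. -/
noncomputable def err (n : ℕ) : ℝ :=
  8 * Real.exp (-(0.05 * Real.log n)) + 4 * Real.exp (-(8 * Real.log n)) +
    24 * Real.exp (-((n : ℝ) / 4))

lemma tendsto_err : Tendsto err atTop (𝓝 0) := by
  have hlog : Tendsto (fun n : ℕ => Real.log (n : ℝ)) atTop atTop :=
    Real.tendsto_log_atTop.comp tendsto_natCast_atTop_atTop
  have h1 : Tendsto (fun n : ℕ => Real.exp (-(0.05 * Real.log n))) atTop (𝓝 0) :=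
    Real.tendsto_exp_neg_atTop_nhds_zero.comp (hlog.const_mul_atTop (by norm_num))
  have h2 : Tendsto (fun n : ℕ => Real.exp (-(8 * Real.log n))) atTop (𝓝 0) :=
    Real.tendsto_exp_neg_atTop_nhds_zero.comp (hlog.const_mul_atTop (by norm_num))
  have h3 : Tendsto (fun n : ℕ => Real.exp (-((n : ℝ) / 4))) atTop (𝓝 0) := by
    refine Real.tendsto_exp_neg_atTop_nhds_zero.comp ?_
    exact tendsto_natCast_atTop_atTop.atTop_div_const (by norm_num)
  have h4 := ((h1.const_mul 8).add (h2.const_mul 4)).add (h3.const_mul 24)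
  have h5 : (8 : ℝ) * 0 + 4 * 0 + 24 * 0 = 0 := by norm_num
  rw [h5] at h4
  exact h4

theorem sum_maj_le {n : ℕ} (h : Large n) :
    ∑ k ∈ Finset.Icc 2 n, (n.descFactorial k : ℝ) * maj n k ≤ err n := by
  obtain ⟨h1, h2, h3, h4, h5⟩ := basic h
  have hnn := h.hn
  have hn' : (1000 : ℝ) ≤ n := by exact_mod_cast h.hn
  set r := Real.exp (-0.3 * Real.log n) with hr
  have hr0 : 0 < r := Real.exp_pos _
  have hr1 : r ≤ 1 / 2 := by
    have : r ≤ Real.exp (-1) := Real.exp_le_exp.mpr (by linarith)
    have h7 : Real.exp (-1) ≤ 1 / 2 := by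
      rw [Real.exp_neg, one_div]
      apply inv_anti₀ (by norm_num)
      have := Real.exp_one_gt_d9
      linarith
    linarith
  set A := 4 * Real.exp (0.55 * Real.log n) with hA
  set B := 4 * Real.exp (-(9 * Real.log n)) with hB
  set D := 24 * Real.exp (-(3 * (n : ℝ) / 4) + 0.55 * Real.log n + 0.5 * Real.log n) with hD
  set z := Real.exp (0.9 * Real.log n) with hz
  have hA0 : 0 ≤ A := by positivity
  have hB0 : 0 ≤ B := by positivity
  have hD0 : 0 ≤ D := by positivity
  have hz0 : 0 ≤ z := by positivity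
  have hterm : ∀ k ∈ Finset.Icc 2 n, (n.descFactorial k : ℝ) * maj n k ≤
      A * r ^ k + B + D * (z ^ (n - k) / (n - k).factorial) := by
    intro k hk
    rw [Finset.mem_Icc] at hk
    have c1 : 0 ≤ A * r ^ k := by positivity
    have c2 : 0 ≤ D * (z ^ (n - k) / (n - k).factorial) := by positivity
    by_cases hk1 : (k : ℝ) ≤ n / 10
    · have h10 : (n.descFactorial k : ℝ) * maj n k ≤ A * r ^ k := term1 h k hk1
      linarith
    · by_cases hk2 : (k : ℝ) ≤ 2 * n / 5
      · have h10 : (n.descFactorial k : ℝ) * maj n k ≤ B :=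
          term2 h k hk2 (by push Not at hk1; exact hk1)
        linarith
      · have h10 : (n.descFactorial k : ℝ) * maj n k ≤ D * (z ^ (n - k) / (n - k).factorial) :=
          term3 h k hk.2 hk2
        linarith
  refine (Finset.sum_le_sum hterm).trans ?_
  rw [Finset.sum_add_distrib, Finset.sum_add_distrib, ← Finset.mul_sum _ _ A,
    ← Finset.mul_sum _ _ D]
  -- T1
  have hT1 : A * ∑ k ∈ Finset.Icc 2 n, r ^ k ≤ 8 * Real.exp (-(0.05 * Real.log n)) := by
    have g1 : ∑ k ∈ Finset.Icc 2 n, r ^ k ≤ 2 * r ^ 2 := by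
      have g2 : ∑ k ∈ Finset.Icc 2 n, r ^ k = ∑ i ∈ Finset.range (n - 1), r ^ (i + 2) := by
        rw [show Finset.Icc 2 n = Finset.Ico 2 (n + 1) by rfl, Finset.sum_Ico_eq_sum_range]
        rw [show n + 1 - 2 = n - 1 by omega]
        refine Finset.sum_congr rfl fun i _ => ?_
        rw [add_comm]
      rw [g2]
      simp only [pow_add]
      rw [← Finset.sum_mul]
      have g3 : ∑ i ∈ Finset.range (n - 1), r ^ i ≤ 2 := by
        have g4 : ∑ i ∈ Finset.range (n - 1), r ^ i ≤ ∑ i ∈ Finset.range (n - 1), (1 / 2 : ℝ) ^ i :=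
          Finset.sum_le_sum fun i _ => pow_le_pow_left₀ hr0.le hr1 i
        refine g4.trans ?_
        rw [geom_sum_eq (by norm_num)]
        have g5 : (0 : ℝ) < (1 / 2) ^ (n - 1) := by positivity
        have g6 : ((1 / 2 : ℝ) ^ (n - 1) - 1) / (1 / 2 - 1) = 2 - 2 * (1 / 2) ^ (n - 1) := by
          ring
        rw [g6]
        linarith
      nlinarith [sq_nonneg r]
    calc A * ∑ k ∈ Finset.Icc 2 n, r ^ k ≤ A * (2 * r ^ 2) := by gcongr
      _ = 8 * (Real.exp (0.55 * Real.log n) * r ^ 2) := by rw [hA]; ring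
      _ = _ := by
          rw [hr, ← Real.exp_nat_mul, ← Real.exp_add]
          congr 2
          push_cast
          ring
  have hT2 : ∑ _k ∈ Finset.Icc 2 n, B ≤ 4 * Real.exp (-(8 * Real.log n)) := by
    rw [Finset.sum_const, Nat.card_Icc, nsmul_eq_mul]
    have e1 : ((n + 1 - 2 : ℕ) : ℝ) ≤ n := by
      exact_mod_cast (by omega : n + 1 - 2 ≤ n)
    calc ((n + 1 - 2 : ℕ) : ℝ) * B ≤ n * B := by gcongr
      _ = 4 * (n * Real.exp (-(9 * Real.log n))) := by rw [hB]; ring
      _ = 4 * (Real.exp (Real.log n) * Real.exp (-(9 * Real.log n))) := by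
          rw [Real.exp_log (by linarith)]
      _ = _ := by
          rw [← Real.exp_add]
          congr 2
          ring
  have hT3 : D * ∑ k ∈ Finset.Icc 2 n, z ^ (n - k) / ((n - k).factorial : ℝ)
      ≤ 24 * Real.exp (-((n : ℝ) / 4)) := by
    have g1 : ∑ k ∈ Finset.Icc 2 n, z ^ (n - k) / ((n - k).factorial : ℝ) ≤ Real.exp z := by
      have g2 : ∑ k ∈ Finset.Icc 2 n, z ^ (n - k) / ((n - k).factorial : ℝ)
          ≤ ∑ k ∈ Finset.range (n + 1), z ^ (n - k) / ((n - k).factorial : ℝ) := by
        apply Finset.sum_le_sum_of_subset_of_nonneg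
        · intro k hk
          rw [Finset.mem_Icc] at hk
          rw [Finset.mem_range]
          omega
        · intro k _ _
          positivity
      refine g2.trans ?_
      have g3 := Finset.sum_range_reflect (fun j => z ^ j / (j.factorial : ℝ)) (n + 1)
      simp only [Nat.add_sub_cancel] at g3
      rw [g3]
      exact Real.sum_le_exp_of_nonneg hz0 _
    calc D * ∑ k ∈ Finset.Icc 2 n, z ^ (n - k) / ((n - k).factorial : ℝ)
        ≤ D * Real.exp z := by gcongr
      _ = 24 * (Real.exp (-(3 * (n : ℝ) / 4) + 0.55 * Real.log n + 0.5 * Real.log n) *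
          Real.exp z) := by rw [hD]; ring
      _ = 24 * Real.exp (-(3 * (n : ℝ) / 4) + 0.55 * Real.log n + 0.5 * Real.log n + z) := by
          rw [← Real.exp_add]
      _ ≤ _ := by
          have hz4 := h.h4
          rw [← hz] at hz4
          have h33 := h.h3
          have hl2 : 0 < Real.log 2 := Real.log_pos (by norm_num)
          have : 0 ≤ 4 * (Real.log n / Real.log 2) + 6 * (Real.log n / Real.log 2) ^ 2 := by
            positivity
          have : -(3 * (n : ℝ) / 4) + 0.55 * Real.log n + 0.5 * Real.log n + z ≤ -((n : ℝ) / 4) := by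
            linarith
          gcongr
  exact add_le_add (add_le_add hT1 hT2) hT3

theorem sum_Z_le {n : ℕ} (h : Large n) :
    ∑ π ∈ (univ : Finset (Equiv.Perm (Fin n))).erase 1, Z π (tMiss n) ≤
      ((n.choose 2).choose (tMiss n) : ℝ) * 2 ^ (n.choose 2 - tMiss n) * err n := by
  calc _ ≤ ∑ π ∈ (univ : Finset (Equiv.Perm (Fin n))).erase 1,
        ((n.choose 2).choose (tMiss n) : ℝ) * 2 ^ (n.choose 2 - tMiss n) * maj n (#π.support) :=
        Finset.sum_le_sum fun π _ => Z_le_maj h π
    _ = ((n.choose 2).choose (tMiss n) : ℝ) * 2 ^ (n.choose 2 - tMiss n) *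
        ∑ π ∈ (univ : Finset (Equiv.Perm (Fin n))).erase 1, maj n (#π.support) := by
        rw [Finset.mul_sum]
    _ ≤ _ := by
        apply mul_le_mul_of_nonneg_left _ (by positivity)
        exact (sum_perm_le n (maj n) (maj_nonneg n)).trans (sum_maj_le h)

/-- The number of `Bool`-valued functions with `t` values `true`. -/
lemma card_fun (α : Type*) [Fintype α] [DecidableEq α] (t : ℕ) :
    #{M : α → Bool | #{e | M e = true} = t} = (Fintype.card α).choose t := by
  rw [← Finset.card_univ (α := α), ← Finset.card_powersetCard]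
  refine Finset.card_nbij' (fun M => univ.filter fun e => M e = true)
    (fun S => fun e => decide (e ∈ S)) ?_ ?_ ?_ ?_
  · intro M hM
    simp only [Finset.mem_coe, Finset.mem_filter, Finset.mem_univ, true_and] at hM
    simp only [Finset.mem_coe, Finset.mem_powersetCard]
    exact ⟨Finset.subset_univ _, hM⟩
  · intro S hS
    simp only [Finset.mem_coe, Finset.mem_powersetCard] at hS
    simp only [Finset.mem_coe, Finset.mem_filter, Finset.mem_univ, true_and]
    simp [hS.2]
  · intro M _
    funext e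
    simp
  · intro S _
    ext e
    simp

open Classical in
/-- Reindexing sums over graphs with `t` missing edges. -/
lemma sum_graphs {n : ℕ} (t : ℕ) (F : (Prs n → Bool) → ℝ) :
    ∑ G : SimpleGraph (Fin n) with #{e | miss G e = true} = t, F (miss G)
      = ∑ M : Prs n → Bool with #{e | M e = true} = t, F M := by
  refine Finset.sum_equiv (missEquiv n) ?_ ?_
  · intro G
    simp
  · intro G _
    rfl

open Classical in
lemma card_graphs (n t : ℕ) :
    #{G : SimpleGraph (Fin n) | #{e | miss G e = true} = t} = (n.choose 2).choose t := by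
  have h := sum_graphs (n := n) t (fun _ => (1 : ℝ))
  rw [Finset.sum_const, Finset.sum_const, nsmul_eq_mul, nsmul_eq_mul, mul_one, mul_one,
    card_fun, card_Prs] at h
  exact_mod_cast h

open Classical in
/-- Markov's inequality. -/
theorem markov {n : ℕ} (t : ℕ) (ht : t ≤ n.choose 2) (c : ℝ) :
    (1 - c) * 2 ^ (n.choose 2 - t) *
      (#{G : SimpleGraph (Fin n) | #{e | miss G e = true} = t ∧
        ¬ c * 2 ^ (n.choose 2 - t) ≤ (numUnique G : ℝ)} : ℝ)
      ≤ ∑ π ∈ (univ : Finset (Equiv.Perm (Fin n))).erase 1, Z π t := by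
  have hswap : ∑ π ∈ (univ : Finset (Equiv.Perm (Fin n))).erase 1, Z π t
      = ∑ G : SimpleGraph (Fin n) with #{e | miss G e = true} = t,
        ∑ π ∈ (univ : Finset (Equiv.Perm (Fin n))).erase 1,
          ∏ e, (wt (miss G e) (miss G (permPr π e)) : ℝ) := by
    rw [Finset.sum_comm]
    refine Finset.sum_congr rfl fun π _ => ?_
    exact (sum_graphs t (fun M => ∏ e, (wt (M e) (M (permPr π e)) : ℝ))).symm
  rw [hswap]
  rw [← Finset.filter_filter]
  set S := univ.filter fun G : SimpleGraph (Fin n) => #{e | miss G e = true} = t with hS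
  set T := S.filter fun G => ¬ c * 2 ^ (n.choose 2 - t) ≤ (numUnique G : ℝ) with hT
  calc (1 - c) * 2 ^ (n.choose 2 - t) * (#T : ℝ) = ∑ _G ∈ T, (1 - c) * 2 ^ (n.choose 2 - t) := by
        rw [Finset.sum_const, nsmul_eq_mul, mul_comm]
    _ ≤ ∑ G ∈ T, ∑ π ∈ (univ : Finset (Equiv.Perm (Fin n))).erase 1,
          ∏ e, (wt (miss G e) (miss G (permPr π e)) : ℝ) := by
        refine Finset.sum_le_sum fun G hG => ?_
        rw [hT, Finset.mem_filter, hS, Finset.mem_filter] at hG
        obtain ⟨⟨_, hGt⟩, hG2⟩ := hG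
        push Not at hG2
        have hm : G.edgeSet.ncard = n.choose 2 - t := by
          have := card_miss_add G
          omega
        have h1 := le_numUnique_add G
        rw [hm] at h1
        have h2 : (2 : ℝ) ^ (n.choose 2 - t) ≤ numUnique G +
            ∑ π ∈ (univ : Finset (Equiv.Perm (Fin n))).erase 1,
              ∏ e, (wt (miss G e) (miss G (permPr π e)) : ℝ) := by
          exact_mod_cast h1
        linarith
    _ ≤ _ := by
        apply Finset.sum_le_sum_of_subset_of_nonneg (Finset.filter_subset _ _)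
        intro G _ _
        exact Finset.sum_nonneg fun π _ => Finset.prod_nonneg fun e _ => Nat.cast_nonneg _

open Classical in
lemma prob_eq {n : ℕ} (t : ℕ) (ht : t ≤ n.choose 2) (P : SimpleGraph (Fin n) → Prop) :
    prob n (n.choose 2 - t) P =
      1 - (#{G : SimpleGraph (Fin n) | #{e | miss G e = true} = t ∧ ¬ P G} : ℝ) /
        ((n.choose 2).choose t : ℝ) := by
  have hiff : ∀ G : SimpleGraph (Fin n),
      G.edgeSet.ncard = n.choose 2 - t ↔ #{e | miss G e = true} = t := by
    intro G
    have := card_miss_add G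
    omega
  have h1 : {G : SimpleGraph (Fin n) | G.edgeSet.ncard = n.choose 2 - t}.ncard
      = (n.choose 2).choose t := by
    rw [← card_graphs, ← Set.ncard_coe_finset]
    congr 1
    ext G
    simp [hiff]
  have h2 : {G : SimpleGraph (Fin n) | G.edgeSet.ncard = n.choose 2 - t ∧ P G}.ncard
      = #{G : SimpleGraph (Fin n) | #{e | miss G e = true} = t ∧ P G} := by
    rw [← Set.ncard_coe_finset]
    congr 1
    ext G
    simp [hiff]
  have h3 : #{G : SimpleGraph (Fin n) | #{e | miss G e = true} = t ∧ P G} +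
      #{G : SimpleGraph (Fin n) | #{e | miss G e = true} = t ∧ ¬ P G}
      = (n.choose 2).choose t := by
    rw [← card_graphs, ← Finset.filter_filter, ← Finset.filter_filter]
    exact Finset.card_filter_add_card_filter_not _
  have h4 : 0 < (n.choose 2).choose t := Nat.choose_pos ht
  have h5 : (0 : ℝ) < ((n.choose 2).choose t : ℝ) := by exact_mod_cast h4
  unfold prob
  rw [h1, h2, eq_sub_iff_add_eq, ← add_div, div_eq_one_iff_eq h5.ne']
  exact_mod_cast h3

theorem main (c : ℝ) (hc : c < 1) :
    Tendsto (fun n : ℕ => prob n (mEdges n)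
      (fun G => c * 2 ^ (mEdges n) ≤ (numUnique G : ℝ))) atTop (𝓝 1) := by
  classical
  have hc' : 0 < 1 - c := by linarith
  have hlow : Tendsto (fun n : ℕ => 1 - err n / (1 - c)) atTop (𝓝 1) := by
    have := (tendsto_err.div_const (1 - c)).const_sub 1
    simpa using this
  refine tendsto_of_tendsto_of_tendsto_of_le_of_le' hlow tendsto_const_nhds ?_ ?_
  · filter_upwards [eventually_large] with n hn
    obtain ⟨h1, h2, h3, h4, h5⟩ := basic hn
    have hm : mEdges n = n.choose 2 - tMiss n := rfl
    rw [hm, prob_eq (tMiss n) h4.le]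
    have hC : (0 : ℝ) < ((n.choose 2).choose (tMiss n) : ℝ) := by
      exact_mod_cast Nat.choose_pos h4.le
    have hM := (markov (n := n) (tMiss n) h4.le c).trans (sum_Z_le hn)
    set b : ℝ := (#{G : SimpleGraph (Fin n) | #{e | miss G e = true} = tMiss n ∧
        ¬ c * 2 ^ (n.choose 2 - tMiss n) ≤ (numUnique G : ℝ)} : ℝ) with hb
    have h6 : (1 - c) * b ≤ ((n.choose 2).choose (tMiss n) : ℝ) * err n := by
      have h7 : (0 : ℝ) < 2 ^ (n.choose 2 - tMiss n) := by positivity
      have h8 : 2 ^ (n.choose 2 - tMiss n) * ((1 - c) * b) ≤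
          2 ^ (n.choose 2 - tMiss n) * (((n.choose 2).choose (tMiss n) : ℝ) * err n) := by
        calc _ = (1 - c) * 2 ^ (n.choose 2 - tMiss n) * b := by ring
          _ ≤ _ := hM
          _ = _ := by ring
      exact le_of_mul_le_mul_left h8 h7
    have h9 : b / ((n.choose 2).choose (tMiss n) : ℝ) ≤ err n / (1 - c) := by
      rw [div_le_div_iff₀ hC hc']
      linarith
    linarith
  · filter_upwards [eventually_large] with n hn
    obtain ⟨h1, h2, h3, h4, h5⟩ := basic hn
    have hm : mEdges n = n.choose 2 - tMiss n := rfl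
    rw [hm, prob_eq (tMiss n) h4.le]
    have : (0 : ℝ) ≤ (#{G : SimpleGraph (Fin n) | #{e | miss G e = true} = tMiss n ∧
        ¬ c * 2 ^ (n.choose 2 - tMiss n) ≤ (numUnique G : ℝ)} : ℝ) /
        ((n.choose 2).choose (tMiss n) : ℝ) := by positivity
    linarith

end Pool.Agent.Work.MP_618f8d_co
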